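import Pool.Agent.MP_d32a63_an.H58.Spec

set_option autoImplicit false

open Set Filter Topology Metric Polynomial
open Complex (I)
open Pool.Agent.MP_d32a63_an.H95 (Core Sec jet W0 Flat)
open Pool.Agent.MP_d32a63_an.H58

namespace Pool.Agent.MP_d32a63_an.H9

lemma ev (n : ℕ) (G : ℕ → ℂ → ℂ) (p z : ℂ) : (tay n G p).eval z = H95.tay n G p z := by
  simp only [tay, H95.tay, eval_finsetSum, eval_mul, eval_C, eval_pow, eval_sub, eval_X]
  exact Finset.sum_congr rfl fun j _ => by ring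

lemma ndeg_term (a p : ℂ) (j : ℕ) : (C a * (X - C p) ^ j).natDegree ≤ j :=
  (natDegree_C_mul_le _ _).trans (by rw [natDegree_pow, natDegree_X_sub_C, mul_one])

lemma deg (n : ℕ) (G : ℕ → ℂ → ℂ) (p : ℂ) : (tay n G p).degree < n := by
  rw [tay]
  refine (degree_sum_le _ _).trans_lt ((Finset.sup_lt_iff (WithBot.bot_lt_coe n)).2 fun j hj => ?_)
  refine (degree_le_of_natDegree_le (ndeg_term _ p j)).trans_lt ?_
  exact WithBot.coe_lt_coe.2 (Finset.mem_range.1 hj)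

lemma ndeg (n : ℕ) (G : ℕ → ℂ → ℂ) (p : ℂ) : (tay (n + 1) G p).natDegree ≤ n :=
  natDegree_sum_le_of_forall_le _ _ fun j hj =>
    (ndeg_term _ p j).trans (Nat.lt_succ_iff.1 (Finset.mem_range.1 hj))

lemma der_tay (n : ℕ) (G : ℕ → ℂ → ℂ) (p : ℂ) :
    derivative (tay n G p) = tay (n - 1) (fun j => G (j + 1)) p := by
  cases n with
  | zero => simp [tay]
  | succ n =>
    rw [tay, tay, Finset.sum_range_succ', derivative_add, derivative_sum, Nat.add_sub_cancel]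
    simp only [pow_zero, mul_one, derivative_C, add_zero]
    refine Finset.sum_congr rfl fun j _ => ?_
    rw [derivative_C_mul, derivative_X_sub_C_pow, Nat.add_sub_cancel, ← mul_assoc, ← C_mul]
    congr 2
    have h1 : (j.factorial : ℂ) ≠ 0 := by exact_mod_cast j.factorial_ne_zero
    have h2 : ((j : ℂ) + 1) ≠ 0 := by exact_mod_cast j.succ_ne_zero
    rw [Nat.factorial_succ]
    push_cast
    field_simp

lemma iter_tay (i n : ℕ) (G : ℕ → ℂ → ℂ) (p : ℂ) :
    derivative^[i] (tay n G p) = tay (n - i) (fun j => G (j + i)) p := by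
  induction i with
  | zero => simp
  | succ i ih =>
    rw [Function.iterate_succ_apply', ih, der_tay, Nat.sub_sub]
    simp only [add_assoc, add_comm 1 i]

lemma jt (n : ℕ) (G : ℕ → ℂ → ℂ) (p : ℂ) (j : ℕ) (h : j < n) : jet (tay n G p) j p = G j p := by
  obtain ⟨m, rfl⟩ := Nat.exists_eq_add_of_lt h
  rw [jet, iter_tay, ev, H95.tay, show j + m + 1 - j = m + 1 by omega, Finset.sum_range_succ']
  simp

lemma exp3 : Real.exp 3 ≤ 21 := by
  have h1 := Real.exp_one_lt_d9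
  have h2 : Real.exp 3 = Real.exp 1 ^ 3 := by rw [← Real.exp_nat_mul]; norm_num
  rw [h2]
  calc Real.exp 1 ^ 3 ≤ 2.7182818286 ^ 3 := pow_le_pow_left₀ (Real.exp_pos 1).le h1.le 3
    _ ≤ 21 := by norm_num

lemma bd (n : ℕ) (G : ℕ → ℂ → ℂ) (p : ℂ) (M : ℝ) (hM : 0 ≤ M) (h : ∀ j < n, ‖G j p‖ ≤ M) (i : ℕ)
    (z : ℂ) (hz : ‖z - p‖ ≤ 3) : ‖jet (tay n G p) i z‖ ≤ 21 * M := by
  rw [jet, iter_tay, ev, H95.tay]
  calc _ ≤ ∑ j ∈ Finset.range (n - i), M * ((3 : ℝ) ^ j / j.factorial) := by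
        refine norm_sum_le_of_le _ fun j hj => ?_
        have hj' : j + i < n := by have := Finset.mem_range.1 hj; omega
        rw [norm_div, norm_mul, norm_pow, Complex.norm_natCast, mul_div_assoc]
        gcongr
        exact h _ hj'
    _ ≤ M * Real.exp 3 := by
        rw [← Finset.mul_sum]
        exact mul_le_mul_of_nonneg_left (Real.sum_le_exp_of_nonneg (by norm_num) _) hM
    _ ≤ 21 * M := by rw [mul_comm]; exact mul_le_mul_of_nonneg_right exp3 hM

lemma jadd (P Q : ℂ[X]) (j : ℕ) (z : ℂ) : jet (P + Q) j z = jet P j z + jet Q j z := by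
  simp [jet]

lemma jsub (P Q : ℂ[X]) (j : ℕ) (z : ℂ) : jet (P - Q) j z = jet P j z - jet Q j z := by
  simp [jet]

lemma jmul (a : ℂ) (P : ℂ[X]) (j : ℕ) (z : ℂ) : jet (C a * P) j z = a * jet P j z := by
  simp [jet, iterate_derivative_C_mul]

lemma jC (a : ℂ) (j : ℕ) (z : ℂ) : jet (C a) (j + 1) z = 0 := by
  simp [jet, iterate_derivative_C]

lemma jder (P : ℂ[X]) (j : ℕ) (z : ℂ) : HasDerivAt (jet P j) (jet P (j + 1) z) z := by
  have := (derivative^[j] P).hasDerivAt z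
  rwa [← Function.iterate_succ_apply' derivative] at this

lemma lip (P : ℂ[X]) (i : ℕ) (A : Set ℂ) (M : ℝ) (hA : Convex ℝ A)
    (h : ∀ z ∈ A, ‖jet P (i + 1) z‖ ≤ M) (x : ℂ) (hx : x ∈ A) (y : ℂ) (hy : y ∈ A) :
    ‖jet P i y - jet P i x‖ ≤ M * ‖y - x‖ :=
  hA.norm_image_sub_le_of_norm_hasDerivWithin_le (fun z _ => (jder P i z).hasDerivWithinAt) h hx hy

lemma snd (P : ℂ[X]) (A : Set ℂ) (M : ℝ) (hA : Convex ℝ A) (h : ∀ z ∈ A, ‖jet P 2 z‖ ≤ M)
    (x : ℂ) (hx : x ∈ A) (y : ℂ) (hy : y ∈ A) :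
    ‖P.eval y - P.eval x - jet P 1 x * (y - x)‖ ≤ M * ‖y - x‖ ^ 2 := by
  have hM : 0 ≤ M := (norm_nonneg _).trans (h x hx)
  have hB : Convex ℝ (A ∩ closedBall x ‖y - x‖) := hA.inter (convex_closedBall _ _)
  have key := hB.norm_image_sub_le_of_norm_hasDerivWithin_le
    (f := fun z => jet P 0 z - jet P 1 x * z) (f' := fun z => jet P 1 z - jet P 1 x)
    (C := M * ‖y - x‖) (x := x) (y := y)
    (fun z _ => ((jder P 0 z).sub
      (by simpa using (hasDerivAt_id z).const_mul (jet P 1 x))).hasDerivWithinAt)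
    (fun z hz => (lip P 1 A M hA h x hx z hz.1).trans
      (mul_le_mul_of_nonneg_left (mem_closedBall_iff_norm.1 hz.2) hM))
    ⟨hx, mem_closedBall_self (norm_nonneg _)⟩ ⟨hy, mem_closedBall_iff_norm.2 le_rfl⟩
  have e : P.eval y - P.eval x - jet P 1 x * (y - x)
      = jet P 0 y - jet P 1 x * y - (jet P 0 x - jet P 1 x * x) := by
    simp only [jet, Function.iterate_zero, id]
    ring
  rw [e, pow_two, ← mul_assoc]
  exact key

lemma jet_eq (P : ℂ[X]) (i : ℕ) : jet P i = iteratedDeriv i fun z => P.eval z := by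
  induction i with
  | zero => ext; simp [jet]
  | succ i ih =>
    ext z
    rw [iteratedDeriv_succ, ← ih, (jder P i z).deriv]

lemma cauchy (P : ℂ[X]) (x : ℂ) (R M : ℝ) (i : ℕ) (hR : 0 < R)
    (h : ∀ z ∈ closedBall x R, ‖P.eval z‖ ≤ M) : ‖jet P i x‖ ≤ i.factorial * M / R ^ i := by
  rw [jet_eq]
  exact Complex.norm_iteratedDeriv_le_of_forall_mem_sphere_norm_le i hR
    P.differentiable.diffContOnCl fun z hz => h z (sphere_subset_closedBall hz)

lemma full (P : ℂ[X]) (n : ℕ) (x : ℂ) (h : P.natDegree ≤ n) : trunc n x P = P := by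
  conv_rhs => rw [← sum_taylor_eq P x]
  rw [sum_over_range' _ (by simp) (n + 1) (by rw [natDegree_taylor]; omega), trunc, tay]
  refine Finset.sum_congr rfl fun j _ => ?_
  have h1 : (j.factorial : ℂ) ≠ 0 := by exact_mod_cast j.factorial_ne_zero
  rw [taylor_coeff, jet, ← factorial_smul_hasseDeriv]
  congr 2
  rw [LinearMap.smul_apply, nsmul_eq_mul, eval_mul, eval_natCast]
  field_simp

lemma tadd (r : ℕ) (x : ℂ) (P Q : ℂ[X]) : trunc r x (P + Q) = trunc r x P + trunc r x Q := by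
  simp only [trunc, tay, jadd, add_div, C_add, add_mul, Finset.sum_add_distrib]

lemma tsub (r : ℕ) (x : ℂ) (P Q : ℂ[X]) : trunc r x (P - Q) = trunc r x P - trunc r x Q := by
  simp only [trunc, tay, jsub, sub_div, C_sub, sub_mul, Finset.sum_sub_distrib]

lemma tmul (r : ℕ) (x a : ℂ) (P : ℂ[X]) : trunc r x (C a * P) = C a * trunc r x P := by
  simp only [trunc, tay, jmul, mul_div_assoc, C_mul, mul_assoc, Finset.mul_sum]

lemma tail (r n : ℕ) (x : ℂ) (P : ℂ[X]) (M : ℝ) (z : ℂ) (hP : P.natDegree ≤ n)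
    (h : ∀ u ∈ closedBall x 1, ‖P.eval u‖ ≤ M) (hz : ‖z - x‖ ≤ 1) :
    ‖(P - trunc r x P).eval z‖ ≤ n * M * ‖z - x‖ ^ (r + 1) := by
  have hM : 0 ≤ M := (norm_nonneg _).trans (h x (mem_closedBall_self zero_le_one))
  rcases le_total n r with hn | hn
  · rw [full P r x (hP.trans hn), sub_self, eval_zero, norm_zero]
    positivity
  have e : (P - trunc r x P).eval z = ∑ j ∈ Finset.Ico (r + 1) (n + 1),
      jet P j x * (z - x) ^ j / (j.factorial : ℂ) := by
    rw [Finset.sum_Ico_eq_sub _ (by omega), eval_sub]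
    conv_lhs => rw [← full P n x hP]
    rw [full P n x hP]
    congr 1
    · conv_lhs => rw [← full P n x hP, trunc, ev, H95.tay]
    · rw [trunc, ev, H95.tay]
  rw [e]
  calc _ ≤ ∑ _j ∈ Finset.Ico (r + 1) (n + 1), M * ‖z - x‖ ^ (r + 1) := by
        refine norm_sum_le_of_le _ fun j hj => ?_
        have h1 : (0 : ℝ) < j.factorial := by exact_mod_cast j.factorial_pos
        have h2 := cauchy P x 1 M j one_pos h
        rw [one_pow, div_one] at h2
        rw [norm_div, norm_mul, norm_pow, Complex.norm_natCast, div_le_iff₀ h1]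
        calc ‖jet P j x‖ * ‖z - x‖ ^ j ≤ (j.factorial * M) * ‖z - x‖ ^ (r + 1) :=
              mul_le_mul h2 (pow_le_pow_of_le_one (norm_nonneg _) hz (Finset.mem_Ico.1 hj).1)
                (by positivity) (by positivity)
          _ = _ := by ring
    _ ≤ n * M * ‖z - x‖ ^ (r + 1) := by
        rw [Finset.sum_const, Nat.card_Ico, nsmul_eq_mul, mul_assoc]
        have : ((n + 1 - (r + 1) : ℕ) : ℝ) ≤ n := by exact_mod_cast (by omega : n + 1 - (r + 1) ≤ n)
        gcongr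

lemma coef (r : ℕ) (x : ℂ) (P : ℂ[X]) :
    (trunc r x P).coeff r = jet P r x / (r.factorial : ℂ) := by
  have h1 : (tay r (jet P) x).coeff r = 0 := coeff_eq_zero_of_degree_lt (deg r _ x)
  have h2 : ((X - C x) ^ r).coeff r = 1 := by
    have := ((monic_X_sub_C x).pow r).coeff_natDegree
    rwa [natDegree_pow, natDegree_X_sub_C, mul_one] at this
  rw [tay] at h1
  rw [trunc, tay, Finset.sum_range_succ, coeff_add, h1, coeff_C_mul, h2, zero_add, mul_one]

lemma upol_eq (r : ℕ) (ω x : ℂ) : upol r ω x = C (ω ^ r) * (X - C x) ^ r := by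
  rw [upol, mul_pow, C_pow]

lemma up (r : ℕ) (ω x : ℂ) (j : ℕ) (z : ℂ) (hω : ‖ω‖ = 1) (hz : ‖z - x‖ ≤ 1) :
    ‖jet (upol r ω x) j z‖ ≤ r.factorial := by
  rw [upol_eq, jmul, jet, iterate_derivative_X_sub_pow, norm_mul, norm_pow, hω, one_pow, one_mul]
  simp only [nsmul_eq_mul, eval_mul, eval_natCast, eval_pow, eval_sub, eval_X, eval_C, norm_mul,
    Complex.norm_natCast, norm_pow]
  have h1 : r.descFactorial j ≤ r.factorial := by
    rcases le_or_gt j r with h | h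
    · rw [Nat.descFactorial_eq_div h]
      exact Nat.div_le_self _ _
    · rw [Nat.descFactorial_of_lt h]
      exact Nat.zero_le _
  calc (r.descFactorial j : ℝ) * ‖z - x‖ ^ (r - j) ≤ r.factorial * 1 :=
        mul_le_mul (by exact_mod_cast h1) (pow_le_one₀ (norm_nonneg _) hz) (by positivity)
          (by positivity)
    _ = _ := mul_one _

lemma upd (r : ℕ) (ω x : ℂ) : (upol r ω x).natDegree ≤ r ∧ (upol r ω x).coeff r = ω ^ r := by
  have h2 : ((X - C x) ^ r).coeff r = 1 := by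
    have := ((monic_X_sub_C x).pow r).coeff_natDegree
    rwa [natDegree_pow, natDegree_X_sub_C, mul_one] at this
  rw [upol_eq]
  exact ⟨ndeg_term _ _ _, by rw [coeff_C_mul, h2, mul_one]⟩

lemma mono (n m : ℕ) (W W' : Set ℂ) (G : ℕ → ℂ → ℂ) (h : Sec n W' G) (hW : W ⊆ W') (hm : m ≤ n) :
    Sec m W G where
  cont j hj := (h.cont j (hj.trans hm)).mono (closure_mono hW)
  der j hj z hz := h.der j (hj.trans_le hm) z (hW hz)
  bdd j hj z hz := h.bdd j (hj.trans hm) z (closure_mono hW hz)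

lemma inn (W : Set ℂ) (z : ℂ) (hW : W0 ⊆ W) (hz : z ∉ W) : |z.re| + |z.im| ≤ 1 ∧ ‖z‖ ≤ 1 := by
  have h : |z.re| + |z.im| ≤ 1 := not_lt.1 fun h => hz (hW h)
  exact ⟨h, (Complex.norm_le_abs_re_add_abs_im z).trans h⟩

lemma cen_re (ℓ : ℝ) (Q : ℤ × ℤ) : (cen ℓ Q).re = ((Q.1 : ℝ) + 1 / 2) * ℓ := by
  simp only [cen, Complex.add_re, Complex.ofReal_re, Complex.mul_re, Complex.I_re, mul_zero,
    Complex.ofReal_im, Complex.I_im, sub_zero, add_zero, zero_mul]

lemma cen_im (ℓ : ℝ) (Q : ℤ × ℤ) : (cen ℓ Q).im = ((Q.2 : ℝ) + 1 / 2) * ℓ := by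
  simp only [cen, Complex.add_im, Complex.ofReal_re, Complex.mul_im, Complex.I_re, mul_zero,
    Complex.ofReal_im, Complex.I_im, add_zero, zero_add, mul_one]

lemma half (ℓ t : ℝ) (h : 0 < ℓ) : |t - ((⌊t / ℓ⌋ : ℝ) + 1 / 2) * ℓ| ≤ ℓ / 2 := by
  have h1 := (le_div_iff₀ h).1 (Int.floor_le (t / ℓ))
  have h2 := (div_lt_iff₀ h).1 (Int.lt_floor_add_one (t / ℓ))
  rw [abs_le]
  constructor <;> linarith

lemma cl1 (ℓ : ℝ) (z : ℂ) (h : 0 < ℓ) : ‖z - cen ℓ (cl ℓ z)‖ ≤ ℓ := by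
  refine (Complex.norm_le_abs_re_add_abs_im _).trans ?_
  rw [Complex.sub_re, Complex.sub_im, cen_re, cen_im]
  have h1 := half ℓ z.re h
  have h2 := half ℓ z.im h
  simp only [cl]
  linarith

lemma cl2 (ℓ : ℝ) (Q : ℤ × ℤ) (h : 0 < ℓ) : cl ℓ (cen ℓ Q) = Q := by
  have key : ∀ a : ℤ, ⌊((a : ℝ) + 1 / 2) * ℓ / ℓ⌋ = a := fun a => by
    rw [mul_div_cancel_right₀ _ h.ne', Int.floor_eq_iff]
    constructor <;> linarith
  rw [cl, cen_re, cen_im, key, key]

lemma finA (W : Set ℂ) (ℓ : ℝ) (hW : W0 ⊆ W) (h : 0 < ℓ) : {Q | act W ℓ Q}.Finite := by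
  obtain ⟨N, hN⟩ := exists_nat_ge (1 / ℓ + 1)
  have key : ∀ a : ℤ, |((a : ℝ) + 1 / 2) * ℓ| ≤ 1 → a ∈ Icc (-(N : ℤ)) N := fun a ha => by
    rw [abs_mul, abs_of_pos h, ← le_div_iff₀ h, abs_le] at ha
    have h1 : -(N : ℝ) ≤ a := by linarith [ha.1]
    have h2 : (a : ℝ) ≤ N := by linarith [ha.2]
    exact ⟨by exact_mod_cast h1, by exact_mod_cast h2⟩
  refine ((finite_Icc (-(N : ℤ)) N).prod (finite_Icc (-(N : ℤ)) N)).subset fun Q hQ => ?_
  have h1 : cen ℓ Q ∉ W := fun hq =>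
    disjoint_left.1 hQ (mem_ball_self (by positivity)) (subset_closure hq)
  have h2 := (inn W _ hW h1).1
  rw [cen_re, cen_im] at h2
  exact ⟨key _ (by linarith [abs_nonneg (((Q.2 : ℝ) + 1 / 2) * ℓ)]),
    key _ (by linarith [abs_nonneg (((Q.1 : ℝ) + 1 / 2) * ℓ)])⟩

lemma s3 : (Real.sqrt 3 : ℂ) ^ 2 = 3 := by
  rw [← Complex.ofReal_pow, Real.sq_sqrt (by norm_num)]; simp

lemma s3' : Real.sqrt 3 * Real.sqrt 3 = 3 := Real.mul_self_sqrt (by norm_num)

lemma a0 {p : ℤ} (h : p % 3 = 0) : acol p = 1 := by simp [acol, h]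
lemma a1 {p : ℤ} (h : p % 3 = 1) : acol p = (Real.sqrt 3 : ℂ) * I := by simp [acol, h]
lemma a2 {p : ℤ} (h : p % 3 = 2) : acol p = -1 := by simp [acol, h]

lemma norm_two {z : ℂ} (h : z.re * z.re + z.im * z.im = 4) : ‖z‖ = 2 := by
  have h1 : ‖z‖ ^ 2 = 2 ^ 2 := by rw [Complex.sq_norm, Complex.normSq_apply, h]; norm_num
  exact (pow_left_inj₀ (norm_nonneg _) (by norm_num) two_ne_zero).1 h1

lemma ac2 (p : ℤ) : ‖acol p‖ ≤ 2 := by
  have h : p % 3 = 0 ∨ p % 3 = 1 ∨ p % 3 = 2 := by omega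
  rcases h with h | h | h
  · simp [a0 h]
  · rw [a1 h, norm_mul, Complex.norm_I, mul_one, Complex.norm_real, Real.norm_eq_abs,
      abs_of_nonneg (Real.sqrt_nonneg _)]
    exact Real.sqrt_le_iff.2 ⟨by norm_num, by norm_num⟩
  · simp [a2 h]

lemma ac3 (p q : ℤ) (hpq : p % 3 ≠ q % 3) : ‖acol p - acol q‖ = 2 := by
  have h : p % 3 = 0 ∨ p % 3 = 1 ∨ p % 3 = 2 := by omega
  have h' : q % 3 = 0 ∨ q % 3 = 1 ∨ q % 3 = 2 := by omega
  have := s3'
  rcases h with h | h | h <;> rcases h' with h' | h' | h' <;>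
    first
    | exact absurd (h.trans h'.symm) hpq
    | (apply norm_two; simp [acol, h, h']; try linarith)

lemma ac4 (p : ℤ) : acol (p + 2) - (acol p + acol (p + 1)) / 2 =
    (Real.sqrt 3 : ℂ) * I * ((acol (p + 1) - acol p) / 2) := by
  have h : p % 3 = 0 ∨ p % 3 = 1 ∨ p % 3 = 2 := by omega
  have h3 := s3
  have hI := Complex.I_sq
  rcases h with h | h | h
  · rw [a0 h, a1 (p := p + 1) (by omega), a2 (p := p + 2) (by omega)]
    linear_combination (-(I ^ 2) / 2) * h3 - 3 / 2 * hI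
  · rw [a1 h, a2 (p := p + 1) (by omega), a0 (p := p + 2) (by omega)]
    linear_combination (I ^ 2 / 2) * h3 + 3 / 2 * hI
  · rw [a2 h, a0 (p := p + 1) (by omega), a1 (p := p + 2) (by omega)]
    ring

lemma ac5 (p : ℤ) :
    actr - (acol p + acol (p + 1)) / 2 = actr * ((acol (p + 1) - acol p) / 2) := by
  have h : p % 3 = 0 ∨ p % 3 = 1 ∨ p % 3 = 2 := by omega
  have h3 := s3
  have hI := Complex.I_sq
  have h0 : (Real.sqrt 3 : ℂ) ≠ 0 := fun e => by simp [e] at h3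
  have ha : actr = (Real.sqrt 3 : ℂ) * I / 3 := by
    rw [actr]
    field_simp
    linear_combination -h3
  rw [ha]
  rcases h with h | h | h
  · rw [a0 h, a1 (p := p + 1) (by omega)]
    linear_combination (-(I ^ 2) / 6) * h3 - 1 / 2 * hI
  · rw [a1 h, a2 (p := p + 1) (by omega)]
    linear_combination (I ^ 2 / 6) * h3 + 1 / 2 * hI
  · rw [a2 h, a0 (p := p + 1) (by omega)]
    ring

theorem basic : BASIC where
  ev := ev
  deg := deg
  ndeg := ndeg
  jt := jt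
  bd := bd
  j0 _ _ := rfl
  jadd := jadd
  jsub := jsub
  jmul := jmul
  jC := jC
  jder := jder
  lip := lip
  snd := snd
  cau := cauchy
  full := full
  tadd := tadd
  tsub := tsub
  tmul := tmul
  tail := tail
  coef := coef
  up := up
  upd := upd
  mono := mono
  inn := inn
  cl1 := cl1
  cl2 := cl2
  finA := finA
  ac1 p q h := by simp only [acol, h]
  ac2 := ac2
  ac3 := ac3
  ac4 := ac4
  ac5 := ac5

theorem mod : MOD := by
  intro n s
  have hK : IsCompact (closedBall (0 : ℂ) 3) := isCompact_closedBall _ _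
  let f : ℂ → Fin (n + 1) → ℂ := fun z j => s.F j z
  have hf : Continuous f := continuous_pi fun j => s.cont j
  obtain ⟨M0, hM0⟩ := hK.exists_bound_of_continuousOn hf.continuousOn
  have hb : ∀ j ≤ n, ∀ z : ℂ, ‖z‖ ≤ 3 → ‖s.F j z‖ ≤ max M0 1 := fun j hj z hz =>
    ((norm_le_pi_norm (f z) ⟨j, Nat.lt_succ_of_le hj⟩).trans
      (hM0 z (mem_closedBall_zero_iff.2 hz))).trans (le_max_left _ _)
  have hM : 0 < max M0 1 := lt_max_of_lt_right one_pos
  generalize max M0 1 = M at hb hM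
  have hu := Metric.uniformContinuousOn_iff_le.1
    (hK.uniformContinuousOn_of_continuous hf.continuousOn)
  have key : ∀ γ : ℝ, ∃ δ : ℝ, 0 < γ → 0 < δ ∧ ∀ y z : ℂ, ‖y‖ ≤ 2 → ‖z - y‖ ≤ δ → ∀ j ≤ n,
      ‖jet (tay (n + 1) s.F y) j z - s.F j z‖ ≤ γ ∧ ‖s.F j z - s.F j y‖ ≤ γ := by
    intro γ
    by_cases hγ : 0 < γ
    swap
    · exact ⟨1, fun h => absurd h hγ⟩
    obtain ⟨δ, hδ, h⟩ := hu (γ / 2) (half_pos hγ)
    refine ⟨min (min δ 1) (γ / 2 / (21 * M)), fun _ => ⟨by positivity, fun y z hy hz j hj => ?_⟩⟩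
    have z1 : ‖z - y‖ ≤ δ := hz.trans ((min_le_left _ _).trans (min_le_left _ _))
    have z2 : ‖z - y‖ ≤ 1 := hz.trans ((min_le_left _ _).trans (min_le_right _ _))
    have z3 : ‖z - y‖ ≤ γ / 2 / (21 * M) := hz.trans (min_le_right _ _)
    have z4 : ‖z‖ ≤ 3 := by
      have := norm_add_le (z - y) y
      rw [sub_add_cancel] at this
      linarith
    have y3 : ‖y‖ ≤ 3 := by linarith
    have h1 : ‖s.F j z - s.F j y‖ ≤ γ / 2 := by
      have h2 := h z (mem_closedBall_zero_iff.2 z4) y (mem_closedBall_zero_iff.2 y3)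
        (by rwa [dist_eq_norm])
      rw [dist_eq_norm] at h2
      exact (norm_le_pi_norm (f z - f y) ⟨j, Nat.lt_succ_of_le hj⟩).trans h2
    have h2 := lip (tay (n + 1) s.F y) j (closedBall y 3) (21 * M) (convex_closedBall _ _)
      (fun u hu => bd _ _ _ M hM.le (fun i hi => hb i (Nat.lt_succ_iff.1 hi) y y3) _ u
        (mem_closedBall_iff_norm.1 hu)) y (mem_closedBall_self (by norm_num)) z
      (mem_closedBall_iff_norm.2 (by linarith))
    rw [jt _ _ _ _ (Nat.lt_succ_of_le hj)] at h2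
    rw [le_div_iff₀ (by positivity)] at z3
    refine ⟨?_, by linarith⟩
    have h3 := norm_sub_le (jet (tay (n + 1) s.F y) j z - s.F j y) (s.F j z - s.F j y)
    rw [sub_sub_sub_cancel_right] at h3
    linarith
  choose mo hmo using key
  exact ⟨mo, M, hM, fun γ hγ => (hmo γ hγ).1, hb, fun γ hγ => (hmo γ hγ).2⟩

end Pool.Agent.MP_d32a63_an.H9
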